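import Pool.Agent.Lib.MP_27cb06_lc.Defs

/-!
# The forcing `Add(ω₁, κ) × Col(ν, < κ)`

A condition is one partial function `f` on the places `(x, inl (i, n))` (a bit of the `x`-th subset
of `Ω × ℕ`) and `(x, inr β)` (the value at `β` of the `x`-th collapsing function `N → {v | v ≤ x}`).
-/

set_option autoImplicit false

namespace Pool.Agent.CC

open Cardinal Set

universe u v

/-- places -/
abbrev Place (Ω N K : Type u) : Type u := K × ((Ω × ℕ) ⊕ N)

variable {Ω N K : Type u} [LinearOrder K]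

/-- legal values at a place: bits at `(x, inl _)`, elements `v ≤ x` at `(x, inr _)` -/
inductive Legal : Place Ω N K → Bool ⊕ K → Prop
  | bit (x : K) (y : Ω × ℕ) (b : Bool) : Legal (x, Sum.inl y) (Sum.inl b)
  | val (x : K) (y : N) (v : K) (h : v ≤ x) : Legal (x, Sum.inr y) (Sum.inr v)

/-- Conditions. -/
@[ext]
structure Cond (Ω N K : Type u) [LinearOrder K] where
  f : Place Ω N K → Option (Bool ⊕ K)
  legal : ∀ e v, f e = some v → Legal e v
  ctbl : {e : K × (Ω × ℕ) | f (e.1, Sum.inl e.2) ≠ none}.Countable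
  small : #{e : K × N | f (e.1, Sum.inr e.2) ≠ none} ≤ 𝔠

/-- stronger conditions are larger functions -/
instance : PartialOrder (Cond Ω N K) where
  le q p := ∀ e v, p.f e = some v → q.f e = some v
  le_refl _ _ _ h := h
  le_trans _ _ _ h₁ h₂ e v h := h₁ e v (h₂ e v h)
  le_antisymm p q h₁ h₂ := by
    ext e v
    exact ⟨fun h => h₂ e v h, fun h => h₁ e v h⟩

theorem Cond.le_def {q p : Cond Ω N K} : q ≤ p ↔ ∀ e v, p.f e = some v → q.f e = some v :=
  Iff.rfl

/-- the empty condition -/
def Cond.empty : Cond Ω N K where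
  f _ := none
  legal _ _ h := by simp at h
  ctbl := by simp
  small := by simp

open Classical in
/-- the restriction of a condition to a set of places -/
noncomputable def Cond.cut (p : Cond Ω N K) (S : Set (Place Ω N K)) : Cond Ω N K where
  f e := if e ∈ S then p.f e else none
  legal e v h := by
    by_cases he : e ∈ S
    · simp only [he, if_true] at h
      exact p.legal e v h
    · simp [he] at h
  ctbl := by
    refine p.ctbl.mono ?_
    intro e he h
    refine he ?_
    have h' : p.f (e.1, Sum.inl e.2) = none := h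
    simp only [h', ite_self]
  small := by
    refine (mk_le_mk_of_subset ?_).trans p.small
    intro e he h
    refine he ?_
    have h' : p.f (e.1, Sum.inr e.2) = none := h
    simp only [h', ite_self]

/-- the part of `p` below `x` -/
noncomputable def Cond.low (x : K) (p : Cond Ω N K) : Cond Ω N K := p.cut {e | e.1 < x}

/-- the part of `p` at the places `(x, inl _)` -/
noncomputable def Cond.add (p : Cond Ω N K) : Cond Ω N K := p.cut {e | e.2.isLeft = true}

/-- the part of `p` at the places `(x, inr _)` -/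
noncomputable def Cond.col (p : Cond Ω N K) : Cond Ω N K := p.cut {e | e.2.isRight = true}

/-- `q` forces that `s` is in the generic filter -/
def In (s q : Cond Ω N K) : Prop := ∀ q' ≤ q, ∃ r ≤ q', r ≤ s

/-- the two conditions agree on their common domain -/
def Comp (p q : Cond Ω N K) : Prop := ∀ e v w, p.f e = some v → q.f e = some w → v = w

/-- all places of `p` are below `x` -/
def Below (p : Cond Ω N K) (x : K) : Prop := ∀ e, p.f e ≠ none → e.1 < x

theorem Cond.cut_eq {p : Cond Ω N K} {S : Set (Place Ω N K)} {e : Place Ω N K}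
    {v : Bool ⊕ K} : (p.cut S).f e = some v ↔ e ∈ S ∧ p.f e = some v := by
  classical
  unfold Cond.cut
  by_cases he : e ∈ S <;> simp [he]

theorem Cond.low_eq {p : Cond Ω N K} {x : K} {e : Place Ω N K}
    {v : Bool ⊕ K} : (p.low x).f e = some v ↔ e.1 < x ∧ p.f e = some v := Cond.cut_eq

theorem Cond.le_cut (p : Cond Ω N K) (S : Set (Place Ω N K)) : p ≤ p.cut S :=
  fun _ _ h => (Cond.cut_eq.1 h).2

theorem Cond.le_low (p : Cond Ω N K) (x : K) : p ≤ p.low x := p.le_cut _

theorem Cond.cut_mono {p q : Cond Ω N K} (h : q ≤ p) (S : Set (Place Ω N K)) :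
    q.cut S ≤ p.cut S :=
  fun e v hv => Cond.cut_eq.2 ⟨(Cond.cut_eq.1 hv).1, h e v (Cond.cut_eq.1 hv).2⟩

theorem Cond.low_mono {p q : Cond Ω N K} (h : q ≤ p) (x : K) : q.low x ≤ p.low x :=
  Cond.cut_mono h _

/-- if `q ≤ p` and all places of `p` are below `x` then `q.low x ≤ p` -/
theorem Cond.low_le_of_below {p q : Cond Ω N K} (h : q ≤ p) {x : K} (hp : Below p x) :
    q.low x ≤ p :=
  fun e v hv => Cond.low_eq.2 ⟨hp e (by simp [hv]), h e v hv⟩

theorem In.mono {s s' q q' : Cond Ω N K} (h : In s q) (hq : q' ≤ q) (hs : s ≤ s') : In s' q' :=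
  fun q'' h'' => by
    obtain ⟨r, hr, hr'⟩ := h q'' (h''.trans hq)
    exact ⟨r, hr, hr'.trans hs⟩

theorem In.of_le {s q : Cond Ω N K} (h : q ≤ s) : In s q := fun q' h' => ⟨q', le_rfl, h'.trans h⟩

theorem In.reg (s : Cond Ω N K) : Reg (In s) :=
  ⟨fun _ _ hq h => h.mono hq le_rfl, fun p h q hq => by
    obtain ⟨r, hr, h'⟩ := h q hq
    obtain ⟨t, ht, ht'⟩ := h' r le_rfl
    exact ⟨t, ht.trans hr, ht'⟩⟩

/-- The hypotheses on the three well-orders: `Ω` has order type `ω₁`, `N` has order type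
`(2 ^ ω)⁺`, `K` has order type a measurable cardinal with normal ultrafilter `U`. -/
structure Setup (Ω N K : Type u) [LinearOrder Ω] [LinearOrder N] [LinearOrder K]
    (U : Ultrafilter K) : Prop where
  cardΩ : #Ω ≤ 𝔠
  ctblΩ : ∀ i : Ω, (Iio i).Countable
  bddΩ : ∀ A : Set Ω, A.Countable → ∃ b, ∀ i ∈ A, i < b
  cardN : 𝔠 < #N
  smallN : ∀ β : N, #(Iio β) ≤ 𝔠
  bddN : ∀ A : Set N, #A ≤ 𝔠 → ∃ b, ∀ β ∈ A, β < b
  cardK : #N < #K
  nonpr : ∀ x : K, ∀ᶠ y in (U : Filter K), x < y
  complete : ∀ (ι : Type u) (A : ι → K → Prop), #ι < #K → (∀ i, ∀ᶠ y in (U : Filter K), A i y) →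
    ∀ᶠ y in (U : Filter K), ∀ i, A i y
  regr : ∀ g : K → K, (∀ᶠ y in (U : Filter K), g y < y) → ∃ x, ∀ᶠ y in (U : Filter K), g y = x

end Pool.Agent.CC
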