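import Mathlib

/-!
# Forcing semantics and the statements

`P` is a notion of forcing (a preorder, stronger conditions are smaller).  Truth values are
predicates on the conditions; a sentence about the forcing extension is translated to the set of
the conditions that force it.  Subsets of a ground model set and functions between ground model
sets are given by names.
-/

set_option autoImplicit false

namespace Pool.Agent.CC

open Cardinal Set

universe u v w

section Forcing

variable {P : Type u} [Preorder P]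

/-- `p ⊩ ¬ φ` -/
def fNot (φ : P → Prop) : P → Prop := fun p => ∀ q ≤ p, ¬ φ q

/-- `p ⊩ φ → ψ` -/
def fImp (φ ψ : P → Prop) : P → Prop := fun p => ∀ q ≤ p, φ q → ψ q

/-- `p ⊩ φ ∧ ψ` -/
def fAnd (φ ψ : P → Prop) : P → Prop := fun p => φ p ∧ ψ p

/-- `p ⊩ φ ↔ ψ` -/
def fIff (φ ψ : P → Prop) : P → Prop := fAnd (fImp φ ψ) (fImp ψ φ)

/-- `p ⊩ ∀ i, φ i` -/
def fAll {I : Sort*} (φ : I → P → Prop) : P → Prop := fun p => ∀ i, φ i p

/-- `p ⊩ ∃ i, φ i` -/
def fEx {I : Sort*} (φ : I → P → Prop) : P → Prop := fun p => ∀ q ≤ p, ∃ r ≤ q, ∃ i, φ i r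

/-- A truth value: persistent, and true at `p` if true at densely many conditions below `p`. -/
def Reg (φ : P → Prop) : Prop :=
  (∀ p q, q ≤ p → φ p → φ q) ∧ ∀ p, (∀ q ≤ p, ∃ r ≤ q, φ r) → φ p

/-- A name for a subset of the ground model set `X`: `mem x p` means `p ⊩ x ∈ A`. -/
structure SetName (P : Type u) [Preorder P] (X : Type v) where
  mem : X → P → Prop
  reg : ∀ x, Reg (mem x)

/-- A name for a function `A → B` between ground model sets:
`app a b p` means `p ⊩ h(a) = b`. -/
structure FunName (P : Type u) [Preorder P] (A : Type v) (B : Type w) where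
  app : A → B → P → Prop
  reg : ∀ a b, Reg (app a b)
  sv : ∀ a b c p, app a b p → app a c p → b = c
  tot : ∀ a p, ∃ q ≤ p, ∃ b, app a b q

end Forcing

section Statement

variable (Ω N K : Type u) [LinearOrder Ω] [LinearOrder N] [LinearOrder K]

/-- every function from `A` to `B` is bounded -/
def Bounded (A : Type v) (B : Type w) [LinearOrder B] : Prop :=
  ∀ h : A → B, ∃ b : B, ∀ a, ∃ v : Iio b, h a = (v : B)

/-- for every `b` in `B` there is a function from `A` to `B` which takes all values below `b` -/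
def Collapsed (A : Type v) (B : Type w) [LinearOrder B] : Prop :=
  ∀ b : B, ∃ h : A → B, ∀ v : Iio b, ∃ a, h a = (v : B)

/-- there is a family of subsets of `ℕ` with index set `Ω` which contains all subsets of `ℕ` -/
def AllSubsets : Prop :=
  ∃ S : Set (Ω × ℕ), ∀ A : Set ℕ, ∃ i : Ω, ∀ n : ℕ, (i, n) ∈ S ↔ n ∈ A

/-- there is a family of different subsets of `Ω` with index set `K` -/
def ManySubsets : Prop :=
  ∃ S : Set (K × Ω), ∀ x : K, ∀ y : Iio x, ¬ ∀ i : Ω, (x, i) ∈ S ↔ ((y : K), i) ∈ S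

/-- The principle: there is a family of unbounded subsets `B i`, `i ∈ D`, of `K`, with a relation
`R` on the index set, such that
* if `(j, i) ∈ R` then `B j ⊆ B i`;
* for every `i ∈ D` and every function `h : K → N` there is a `j ∈ D` with `(j, i) ∈ R` such that
  `h` is constant on `B j`;
* for all `e 0, e 1, ...` in `D` with `(e (n + 1), e n) ∈ R` there is a `j ∈ D` with
  `(j, e n) ∈ R` for all `n`. -/
def Principle : Prop :=
  ∃ (I : Type u) (D : Set I) (R : Set (I × I)) (B : Set (I × K)),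
    (∃ i, i ∈ D) ∧
    (∀ i, i ∈ D → ∀ a : K, ∃ x : Ioi a, (i, (x : K)) ∈ B) ∧
    (∀ i, i ∈ D → ∀ h : K → N, ∃ j, j ∈ D ∧ (j, i) ∈ R ∧ ∃ v : N, ∀ x, (j, x) ∈ B → h x = v) ∧
    (∀ i j, i ∈ D → j ∈ D → (j, i) ∈ R → ∀ x, (j, x) ∈ B → (i, x) ∈ B) ∧
    ∀ e : ℕ → I, (∀ n, ∀ i, e n = i → i ∈ D) →
      (∀ n, ∀ i, ∀ j, e n = i → e (n + 1) = j → (j, i) ∈ R) →
      ∃ j, j ∈ D ∧ ∀ n, ∀ i, e n = i → (j, i) ∈ R

/-- `Ω`, `N`, `K` have the order types `ω₁`, `ω₂`, `ω₃` (if they are infinite well-orders and the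
initial segments of `Ω` are countable), `2 ^ ω = ω₁`, `2 ^ ω₁ ≥ ω₃`, and the principle holds. -/
def Model : Prop :=
  Bounded ℕ Ω ∧ (Collapsed Ω N ∧ Bounded Ω N) ∧ (Collapsed N K ∧ Bounded N K) ∧
    AllSubsets Ω ∧ ManySubsets Ω K ∧ Principle N K

/-- the Chang property `(κ⁺⁺⁺, κ⁺⁺) ↠_κ (κ⁺, κ)` -/
def ChangProperty (κ : Cardinal.{u}) : Prop :=
  ∀ F : Finset Ordinal.{u} → Ordinal.{u},
    (∀ s : Finset Ordinal.{u}, (∀ x ∈ s, x < (Order.succ (Order.succ (Order.succ κ))).ord) →
      F s < (Order.succ (Order.succ (Order.succ κ))).ord) →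
    ∃ X : Set Ordinal.{u},
      (∀ x ∈ X, x < (Order.succ (Order.succ (Order.succ κ))).ord) ∧
      (∀ s : Finset Ordinal.{u}, (∀ x ∈ s, x ∈ X) → F s ∈ X) ∧
      #X = Cardinal.lift.{u + 1} (Order.succ κ) ∧
      #{x | x ∈ X ∧ x < (Order.succ (Order.succ κ)).ord} = Cardinal.lift.{u + 1} κ ∧
      ∀ x < κ.ord, x ∈ X

/-- the three conditions of the question, for the cardinal `κ` -/
def Question (κ : Cardinal.{u}) : Prop :=
  κ.IsRegular ∧ ChangProperty κ ∧ (2 : Cardinal.{u}) ^ κ ≤ Order.succ (Order.succ κ) ∧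
    Order.succ (Order.succ κ) < (2 : Cardinal.{u}) ^ Order.succ κ

variable (P : Type u) [Preorder P]

/-- `p ⊩` every function from `A` to `B` is bounded -/
def fBounded (A : Type v) (B : Type w) [LinearOrder B] : P → Prop :=
  fAll fun h : FunName P A B => fEx fun b : B => fAll fun a : A => fEx fun v : Iio b =>
    h.app a (v : B)

/-- `p ⊩` for every `b` in `B` there is a function from `A` to `B` which takes all values
below `b` -/
def fCollapsed (A : Type v) (B : Type w) [LinearOrder B] : P → Prop :=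
  fAll fun b : B => fEx fun h : FunName P A B => fAll fun v : Iio b => fEx fun a : A =>
    h.app a (v : B)

/-- `p ⊩` there is a family of subsets of `ℕ` with index set `Ω` which contains all subsets
of `ℕ` -/
def fAllSubsets : P → Prop :=
  fEx fun S : SetName P (Ω × ℕ) => fAll fun A : SetName P ℕ => fEx fun i : Ω =>
    fAll fun n : ℕ => fIff (S.mem (i, n)) (A.mem n)

/-- `p ⊩` there is a family of different subsets of `Ω` with index set `K` -/
def fManySubsets : P → Prop :=
  fEx fun S : SetName P (K × Ω) => fAll fun x : K => fAll fun y : Iio x =>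
    fNot (fAll fun i : Ω => fIff (S.mem (x, i)) (S.mem ((y : K), i)))

/-- `p ⊩ Principle N K` -/
def fPrinciple : P → Prop :=
  fEx fun I : Type u => fEx fun D : SetName P I => fEx fun R : SetName P (I × I) =>
    fEx fun B : SetName P (I × K) =>
    fAnd (fEx fun i => D.mem i) <|
    fAnd (fAll fun i => fImp (D.mem i) (fAll fun a : K => fEx fun x : Ioi a =>
      B.mem (i, (x : K)))) <|
    fAnd (fAll fun i => fImp (D.mem i) (fAll fun h : FunName P K N => fEx fun j =>
      fAnd (D.mem j) (fAnd (R.mem (j, i)) (fEx fun v : N => fAll fun x =>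
        fImp (B.mem (j, x)) (h.app x v))))) <|
    fAnd (fAll fun i => fAll fun j => fImp (D.mem i) (fImp (D.mem j) (fImp (R.mem (j, i))
      (fAll fun x => fImp (B.mem (j, x)) (B.mem (i, x)))))) <|
    fAll fun e : FunName P ℕ I => fImp (fAll fun n => fAll fun i => fImp (e.app n i) (D.mem i)) <|
      fImp (fAll fun n => fAll fun i => fAll fun j =>
        fImp (e.app n i) (fImp (e.app (n + 1) j) (R.mem (j, i)))) <|
      fEx fun j => fAnd (D.mem j) (fAll fun n => fAll fun i => fImp (e.app n i) (R.mem (j, i)))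

/-- `p ⊩ Model Ω N K` -/
def fModel : P → Prop :=
  fAnd (fBounded P ℕ Ω) <| fAnd (fAnd (fCollapsed P Ω N) (fBounded P Ω N)) <|
    fAnd (fAnd (fCollapsed P N K) (fBounded P N K)) <|
    fAnd (fAllSubsets Ω P) <| fAnd (fManySubsets Ω K P) (fPrinciple N K P)

end Statement

end Pool.Agent.CC
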