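import Pool.Agent.Lib.MP_27cb06_lc.Cond

/-!
# Names
-/

set_option autoImplicit false

namespace Pool.Agent.CC

open Cardinal Set

universe u v w

section

variable {P : Type u} [Preorder P] {X : Type v} {A : Type v} {B : Type w}

/-- true at densely many conditions below `p` -/
def dn (φ : P → Prop) : P → Prop := fun p => ∀ q ≤ p, ∃ r ≤ q, φ r

theorem dn_reg (φ : P → Prop) : Reg (dn φ) :=
  ⟨fun _ _ hq h r hr => h r (hr.trans hq), fun p h q hq => by
    obtain ⟨r, hr, h'⟩ := h q hq
    obtain ⟨t, ht, ht'⟩ := h' r le_rfl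
    exact ⟨t, ht.trans hr, ht'⟩⟩

theorem dn_of {φ : P → Prop} (hφ : ∀ p q, q ≤ p → φ p → φ q) {p : P} (h : φ p) : dn φ p :=
  fun q hq => ⟨q, le_rfl, hφ p q hq h⟩

/-- the name of a set given by a persistent relation -/
def SetName.ofMono (mem : X → P → Prop) : SetName P X where
  mem x := dn (mem x)
  reg x := dn_reg (mem x)

/-- the name of a function given by a persistent, single valued, densely total relation -/
def FunName.ofMono (app : A → B → P → Prop) (mono : ∀ a b p q, q ≤ p → app a b p → app a b q)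
    (sv : ∀ a b c p, app a b p → app a c p → b = c)
    (tot : ∀ a p, ∃ q ≤ p, ∃ b, app a b q) : FunName P A B where
  app a b := dn (app a b)
  reg a b := dn_reg (app a b)
  sv a b c p h1 h2 := by
    obtain ⟨q, hq, hq'⟩ := h1 p le_rfl
    obtain ⟨r, hr, hr'⟩ := h2 q hq
    exact sv a b c r (mono a b q r hr hq') hr'
  tot a p := by
    obtain ⟨q, hq, b, hb⟩ := tot a p
    exact ⟨q, hq, b, dn_of (mono a b) hb⟩

/-- the name of a ground model set -/
def SetName.check (A : Set X) : SetName P X where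
  mem x _ := x ∈ A
  reg _ := ⟨fun _ _ _ h => h, fun p h => by obtain ⟨_, _, h⟩ := h p le_rfl; exact h⟩

end

variable {Ω N K : Type u} [LinearOrder K]

/-- the index set of the family in the principle -/
abbrev Idx (Ω N K : Type u) [LinearOrder K] : Type u := Set K × (K → Cond Ω N K)

/-- `(A, f)` is in the index set if `A ∈ U` and the part of `f x` below `x`, `x ∈ A`, is constant and
in the generic filter -/
def DMem (U : Ultrafilter K) (i : Idx Ω N K) (q : Cond Ω N K) : Prop :=
  i.1 ∈ U ∧ ∃ s, (∀ x ∈ i.1, (i.2 x).low x = s) ∧ In s q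

theorem DMem.reg (U : Ultrafilter K) (i : Idx Ω N K) : Reg (DMem U i) := by
  refine ⟨fun p q hq h => ⟨h.1, ?_⟩, fun p h => ?_⟩
  · obtain ⟨s, hs, h'⟩ := h.2
    exact ⟨s, hs, h'.mono hq le_rfl⟩
  · obtain ⟨r, hr, h1, s, hs, h'⟩ := h p le_rfl
    refine ⟨h1, s, hs, ?_⟩
    refine (In.reg s).2 p fun q hq => ?_
    obtain ⟨r', hr', h1', s', hs', h''⟩ := h q hq
    refine ⟨r', hr', ?_⟩
    obtain ⟨x, hx⟩ := U.nonempty_of_mem h1
    rw [← hs x hx, hs' x hx]
    exact h''

/-- the name of the index set of the family in the principle -/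
def DName (U : Ultrafilter K) : SetName (Cond Ω N K) (Idx Ω N K) := ⟨DMem U, DMem.reg U⟩

/-- the relation on the index set -/
def RSet (Ω N K : Type u) [LinearOrder K] : Set (Idx Ω N K × Idx Ω N K) :=
  {ji | ji.1.1 ⊆ ji.2.1 ∧ ∀ x ∈ ji.1.1, ji.1.2 x ≤ ji.2.2 x}

/-- the relation on the index set (a ground model relation) -/
def RName (Ω N K : Type u) [LinearOrder K] :
    SetName (Cond Ω N K) (Idx Ω N K × Idx Ω N K) := SetName.check (RSet Ω N K)

/-- the set with index `(A, f)`: all `x ∈ A` such that `f x` is in the generic filter -/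
def BMem (ix : Idx Ω N K × K) (q : Cond Ω N K) : Prop :=
  ix.2 ∈ ix.1.1 ∧ In (ix.1.2 ix.2) q

theorem BMem.reg (ix : Idx Ω N K × K) : Reg (BMem (Ω := Ω) (N := N) ix) := by
  refine ⟨fun p q hq h => ⟨h.1, h.2.mono hq le_rfl⟩, fun p h => ?_⟩
  obtain ⟨r, hr, h1, h'⟩ := h p le_rfl
  refine ⟨h1, (In.reg _).2 p fun q hq => ?_⟩
  obtain ⟨r', hr', _, h''⟩ := h q hq
  exact ⟨r', hr', h''⟩

/-- the name of the family of the principle -/
def BName (Ω N K : Type u) [LinearOrder K] : SetName (Cond Ω N K) (Idx Ω N K × K) :=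
  ⟨BMem, BMem.reg⟩

end Pool.Agent.CC
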