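import Pool.Agent.Lib.MP_27cb06_lc.Mg.G011
import Pool.Agent.Lib.MP_27cb06_lc.Mg.G009

/-!
# The two theorems
-/

set_option autoImplicit false

namespace Pool.Agent.CC

open Cardinal Set

universe u v w

theorem forced (κ : Cardinal.{u}) (hκ : ℵ₀ < κ) (U : Ultrafilter κ.ord.ToType)
    (hU : CardinalInterFilter (U : Filter κ.ord.ToType) κ) (hne : ∀ a, {a} ∉ U) :
    ∃ (P : Type u) (_ : Preorder P), Nonempty P ∧ ∀ p : P,
      fModel (Order.succ (ℵ₀ : Cardinal.{u})).ord.ToType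
        (Order.succ (𝔠 : Cardinal.{u})).ord.ToType κ.ord.ToType P p := by
  obtain ⟨D, h⟩ := exists_setup κ hκ U hU hne
  exact ⟨Cond _ _ _, inferInstance, ⟨Cond.empty⟩, fun p => model_forced h p⟩

end Pool.Agent.CC
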